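import Pool.Agent.Helper68.FL.MNN

/-! Full list for MP_866009_co: module MNC. -/

set_option autoImplicit false

namespace Pool.Agent.Helper64.FL

open Pool.Agent.Helper64.CT Pool.Agent.Helper64.DT
open Pool.Agent.Helper64.HG (Ovl Model Circ IC HellyCircle ChordModel)

theorem mnc_core (hPTB : ST_PTB) (hCNB : ST_CNB) {V : Type} {G : SimpleGraph V} {T : Set V}
    {x y z a b c o : V} {la lb lc : List V} (hN : Clw G T o la a lb b lc c)
    (oa : o ≠ a) (ob : o ≠ b) (oc : o ≠ c) (yb : G.Adj y b) (zc : G.Adj z c)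
    (hm : ∀ T' ⊆ T, ∀ a' b' c', G.Adj x a' → G.Adj y b' → G.Adj z c' → Cn G T' a' b' →
      Cn G T' a' c' → T' = T) :
    ∀ u, (u = o ∨ u ∈ la ∨ u ∈ lb ∨ u ∈ lc) → ¬ G.Adj x u := by
  obtain ⟨hC1, hC2, -, -, -, -, -⟩ := hCNB V G
  obtain ⟨oS, inS, pa, pb, pc, ab, ac, bc⟩ := hN
  have haT : a ∈ T := inS a (by simp)
  have hala : a ∉ la := ((hPTB V G).2.1 o la a pa).2.1
  let S : Set V := {v | (v = o ∨ v ∈ la) ∨ (v ∈ lb ∨ v = b ∨ v ∈ lc ∨ v = c)}
  have hoS : o ∈ S := Or.inl (Or.inl rfl)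
  have hlaS : ∀ v ∈ la, v ∈ S := fun v hv => Or.inl (Or.inr hv)
  have hST : S ⊆ T := by
    intro v hv
    rcases hv with (hv | hv) | hv
    · rw [hv]; exact oS
    · exact inS v (by tauto)
    · exact inS v (by tauto)
  have h1 : ∀ u, (u = o ∨ u ∈ lb ∨ u = b) → Cn G S o u :=
    mnn_leg hPTB hCNB S lb o b pb (fun v hv => by
      rcases hv with h | h | h
      · exact Or.inl (Or.inl h)
      · exact Or.inr (by tauto)
      · exact Or.inr (by tauto))
  have h2 : ∀ u, (u = o ∨ u ∈ lc ∨ u = c) → Cn G S o u :=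
    mnn_leg hPTB hCNB S lc o c pc (fun v hv => by
      rcases hv with h | h | h
      · exact Or.inl (Or.inl h)
      · exact Or.inr (by tauto)
      · exact Or.inr (by tauto))
  intro u hu hxu
  have hou : Cn G S o u := by
    rcases hu with h | h | h | h
    · exact h1 u (by tauto)
    · exact mnn_pl hPTB hCNB S la o a pa hoS hlaS u h
    · exact h1 u (by tauto)
    · exact h2 u (by tauto)
  have huo : Cn G S u o := (hC1 S o u hou).2
  have hub : Cn G S u b := hC2 S u o b huo (h1 b (by simp))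
  have huc : Cn G S u c := hC2 S u o c huo (h2 c (by simp))
  have hE := hm S hST u b c hxu yb zc hub huc
  have haS : a ∈ S := by rw [hE]; exact haT
  rcases haS with (h | h) | h | h | h | h
  · exact oa h.symm
  · exact hala h
  · exact (ab a (Or.inr ⟨rfl, Ne.symm oa⟩) a (Or.inl h)).1 rfl
  · exact (ab a (Or.inr ⟨rfl, Ne.symm oa⟩) a (Or.inr ⟨h, Ne.symm ob⟩)).1 rfl
  · exact (ac a (Or.inr ⟨rfl, Ne.symm oa⟩) a (Or.inl h)).1 rfl
  · exact (ac a (Or.inr ⟨rfl, Ne.symm oa⟩) a (Or.inr ⟨h, Ne.symm oc⟩)).1 rfl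

theorem mnc_sw {V : Type} {G : SimpleGraph V} {o : V} {la lb : List V} {a b : V}
    (h : LegX G o la a lb b) : LegX G o lb b la a := by
  intro u hu v hv
  obtain ⟨h1, h2⟩ := h v hv u hu
  exact ⟨fun e => h1 e.symm, fun e => h2 e.symm⟩

theorem st_MNC (hQPY : ST_QPY) (hRAY : ST_RAY) (hPTB : ST_PTB) (hCNB : ST_CNB) : ST_MNC := by
  intro V _ G Q T hDF hNoP hMax hTQ x y z a b c hx hy hz hxy hxz hyz hM o la lb lc hN oa ob oc
  obtain ⟨hC1, hC2, -, -, -, -, -⟩ := hCNB V G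
  obtain ⟨hR1, -, -, -, -, -⟩ := hRAY V G Q hDF hMax
  have aT := hM.aT
  have bT := hM.bT
  have cT := hM.cT
  have xa := hM.xa
  have yb := hM.yb
  have zc := hM.zc
  have hmin := hM.min
  have rx : RayQ G Q x a := ⟨hx, xa, hTQ a aT⟩
  have ry : RayQ G Q y b := ⟨hy, yb, hTQ b bT⟩
  have rz : RayQ G Q z c := ⟨hz, zc, hTQ c cT⟩
  have axy : G.Adj x y := hMax.1 x hx y hy hxy
  have axz : G.Adj x z := hMax.1 x hx z hz hxz
  have ayz : G.Adj y z := hMax.1 y hy z hz hyz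
  -- the permuted claws
  have hN2 : Clw G T o lb b la a lc c :=
    ⟨hN.oS, fun u hu => hN.inS u (by tauto), hN.pb, hN.pa, hN.pc, mnc_sw hN.ab, hN.bc, hN.ac⟩
  have hN3 : Clw G T o lc c lb b la a :=
    ⟨hN.oS, fun u hu => hN.inS u (by tauto), hN.pc, hN.pb, hN.pa, mnc_sw hN.bc, mnc_sw hN.ac,
      mnc_sw hN.ab⟩
  have kx := mnc_core hPTB hCNB hN oa ob oc yb zc hmin
  have ky := mnc_core hPTB hCNB (x := y) (y := x) (z := z) hN2 ob oa oc xa zc
    (fun T' hT' a' b' c' h1 h2 h3 h4 h5 => hmin T' hT' b' a' c' h2 h1 h3 (hC1 T' a' b' h4).2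
      (hC2 T' b' a' c' (hC1 T' a' b' h4).2 h5))
  have kz := mnc_core hPTB hCNB (x := z) (y := y) (z := x) hN3 oc ob oa yb xa
    (fun T' hT' a' b' c' h1 h2 h3 h4 h5 => hmin T' hT' c' b' a' h3 h2 h1
      (hC2 T' c' a' b' (hC1 T' a' c' h5).2 h4) (hC1 T' a' c' h5).2)
  refine hQPY V G T hNoP x y z o la a lb b lc c axy axz ayz hN oa ob oc xa yb zc
    (hR1 x a y rx hy (Ne.symm hxy)).1 (hR1 x a z rx hz (Ne.symm hxz)).1
    (hR1 y b x ry hx hxy).1 (hR1 y b z ry hz (Ne.symm hyz)).1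
    (hR1 z c x rz hx hxz).1 (hR1 z c y rz hy hyz).1 ?_
  intro u hu
  have huT : u ∈ T := by
    rcases hu with h | h | h | h
    · rw [h]; exact hN.oS
    · exact hN.inS u (by tauto)
    · exact hN.inS u (by tauto)
    · exact hN.inS u (by tauto)
  have huQ : u ∉ Q := hTQ u huT
  refine ⟨⟨fun h => huQ (h ▸ hx), kx u (by tauto)⟩, ⟨fun h => huQ (h ▸ hy), ky u (by tauto)⟩,
    ⟨fun h => huQ (h ▸ hz), kz u (by tauto)⟩⟩

end Pool.Agent.Helper64.FL
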