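import Pool.Agent.Helper64.FL.StG

/-! Full list for MP_866009_co, module NCV. -/

set_option autoImplicit false

namespace Pool.Agent.Helper64.FL

open Pool.Agent.Helper64.CT Pool.Agent.Helper64.DT
open Pool.Agent.Helper64.HG (Ovl Model Circ IC HellyCircle ChordModel)

lemma ncv_mem {V : Type} {G : SimpleGraph V} {S : Set V} {x y : V} (h : Cn G S x y) : y ∈ S := by
  obtain ⟨hx, h⟩ := h
  induction h with
  | refl => exact hx
  | tail _ h2 _ => exact h2.2

lemma ncv_const {V : Type} {G : SimpleGraph V} {S : Set V} {c x y : V} (β : V → V → Bool)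
    (hc : c ∈ S) (hβ : ∀ c ∈ S, ∀ x ∈ S, ∀ y ∈ S, x ∈ Far G c → y ∈ Far G c → G.Adj x y →
      β c x = β c y) (h : Cn G (S ∩ Far G c) x y) : β c x = β c y := by
  obtain ⟨hx, h⟩ := h
  have key : y ∈ S ∩ Far G c ∧ β c x = β c y := by
    induction h with
    | refl => exact ⟨hx, rfl⟩
    | tail _ h2 ih =>
      refine ⟨h2.2, ih.2.trans ?_⟩
      exact hβ c hc _ ih.1.1 _ h2.2.1 ih.1.2 h2.2.2 h2.1
  exact key.2

theorem st_NCV (_h1 : ST_CNB) : ST_NCV := by
  intro V G S v a b c h hN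
  obtain ⟨β, h1, h2, h3⟩ := hN
  have hcS : c ∈ S := (ncv_mem h.bc).1
  have haS : a ∈ S := h.ab.1.1
  have hbS : b ∈ S := h.bc.1.1
  have e1 : β c a = β c b := ncv_const β hcS h2 h.ab
  have e2 : β a b = β a c := ncv_const β haS h2 h.bc
  have e3 : β b a = β b c := ncv_const β hbS h2 h.ac
  have hac : a ≠ c ∧ ¬ G.Adj c a := h.ab.1.2
  have hbc : b ≠ c ∧ ¬ G.Adj c b := (ncv_mem h.ab).2
  have hab : a ≠ b ∧ ¬ G.Adj b a := h.ac.1.2
  have k1 := h3 v h.vS a haS b hbS h.va h.vb hab.1 (fun q => hab.2 q.symm)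
  have k2 := h3 v h.vS b hbS c hcS h.vb h.vc hbc.1 (fun q => hbc.2 q.symm)
  have k3 := h3 v h.vS a haS c hcS h.va h.vc hac.1 (fun q => hac.2 q.symm)
  rw [e1] at k3
  rw [e2, e3] at k1
  generalize β a c = x1 at k1 k2 k3
  generalize β b c = x2 at k1 k2 k3
  generalize β c b = x3 at k1 k2 k3
  generalize β v a = x4 at k1 k2 k3
  generalize β v b = x5 at k1 k2 k3
  generalize β v c = x6 at k1 k2 k3
  revert k1 k2 k3
  revert x1 x2 x3 x4 x5 x6
  decide

end Pool.Agent.Helper64.FL
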