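import Pool.Agent.Helper64.FL.StC

/-! QAB: the configuration `preAB` from an arc. -/

set_option autoImplicit false

namespace Pool.Agent.Helper64.FL

open Pool.Agent.Helper64.CT Pool.Agent.Helper64.DT
open Pool.Agent.Helper64.HG (Ovl Model Circ IC HellyCircle ChordModel)

theorem qab_last {V : Type} {G : SimpleGraph V} (w : V) : ∀ L : List V, IPt G (L ++ [w]) → w ∉ L
  | [], _ => by simp
  | a :: L, h => by
    obtain ⟨h1, -, -, h4⟩ := h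
    intro hw
    rcases List.mem_cons.mp hw with rfl | hw
    · exact h1 w (by simp) rfl
    · exact qab_last w L h4 hw

theorem qab_split {V : Type} {G : SimpleGraph V} (l : List V) (hl : l ≠ []) (h : IPt G l) :
    ∃ p L p', Pth G p L p' ∧ l.head? = some p ∧ l.getLast? = some p' ∧ p ∈ l ∧ p' ∈ l ∧
      (∀ u ∈ L, u ∈ l) ∧ p ∉ L ∧ p' ∉ L := by
  cases l with
  | nil => exact absurd rfl hl
  | cons p t =>
    rcases List.eq_nil_or_concat t with rfl | ⟨L, p', rfl⟩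
    · exact ⟨p, [], p, Or.inl ⟨rfl, rfl⟩, rfl, rfl, by simp, by simp, by simp, by simp, by simp⟩
    · rw [List.concat_eq_append] at *
      obtain ⟨h1, h2, h3, h4⟩ := h
      refine ⟨p, L, p', Or.inr ⟨h1 p' (by simp), ⟨h1, h2, h3, h4⟩⟩, rfl, ?_, by simp, by simp,
        fun u hu => by simp [hu], fun hp => h1 p (by simp [hp]) rfl, qab_last p' L h4⟩
      rw [← List.cons_append, List.getLast?_append]
      simp

theorem qab_pth {V : Type} {G : SimpleGraph V} {a w : V} {l : List V} (h : Pth G a l w)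
    (hne : a ≠ w) : IPt G (a :: (l ++ [w])) := by
  rcases h with ⟨h, -⟩ | ⟨-, h⟩
  · exact absurd h hne
  · exact h

theorem qab_tri {V : Type} {G : SimpleGraph V} {a w : V} {l : List V} (h : Pth G a l w)
    (he : a = w) : l = [] := by
  rcases h with ⟨-, h⟩ | ⟨h, -⟩
  · exact h
  · exact absurd he h

theorem st_QAB : ST_QAB := by
  intro V G hD hN h n P A hab h12 h01 h02 h31 h32
  obtain ⟨p, Lp, p', pp, php, plp, pm, pm', pL, np, np'⟩ :=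
    qab_split (P 0) (A.ne 0 le_rfl (by omega)) (A.ip 0 le_rfl (by omega))
  obtain ⟨l, Ll, l', pl, phl, pll, lm, lm', lL, nl, nl'⟩ :=
    qab_split (P 1) (A.ne 1 (by omega) (by omega)) (A.ip 1 (by omega) (by omega))
  obtain ⟨r, Lr, r', pr, phr, plr, rm, rm', rL, nr, nr'⟩ :=
    qab_split (P 2) (A.ne 2 (by omega) (by omega)) (A.ip 2 (by omega) (by omega))
  -- facts
  have xn : ∀ i, i ≤ 3 → G.Adj h (n i) := fun i hi => A.xn i (Nat.zero_le _) hi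
  have far : ∀ i, i < 3 → ∀ u ∈ P i, h ≠ u ∧ ¬ G.Adj h u := fun i hi u hu => by
    have h1 := A.far i (Nat.zero_le _) hi u hu
    exact ⟨fun e => h1.1 e.symm, h1.2⟩
  have nn : ∀ i j, i < 3 → j ≤ 3 → ∀ u ∈ P i, n j ≠ u := fun i j hi hj u hu e =>
    (far i hi u hu).2 (e ▸ xn j hj)
  have cl : ∀ i j, i < 3 → j ≤ 3 → j ≠ i → j ≠ i + 1 → ∀ u ∈ P i, n j ≠ u ∧ ¬ G.Adj (n j) u :=
    fun i j hi hj h1 h2 u hu => ⟨nn i j hi hj u hu, A.cln i j (Nat.zero_le _) hi (Nat.zero_le _) hj h1 h2 u hu⟩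
  have cl' : ∀ i j, i < 3 → j ≤ 3 → j ≠ i → j ≠ i + 1 → ∀ u ∈ P i, u ≠ n j ∧ ¬ G.Adj u (n j) :=
    fun i j hi hj h1 h2 u hu => ⟨(cl i j hi hj h1 h2 u hu).1.symm,
      fun h' => (cl i j hi hj h1 h2 u hu).2 h'.symm⟩
  have sp : ∀ i j, i < j → j < 3 → ∀ u ∈ P i, ∀ w ∈ P j, u ≠ w ∧ ¬ G.Adj u w :=
    fun i j h1 h2 u hu w hw => A.sep i j (Nat.zero_le _) h1 h2 u hu w hw
  have sp' : ∀ i j, i < j → j < 3 → ∀ u ∈ P j, ∀ w ∈ P i, u ≠ w ∧ ¬ G.Adj u w :=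
    fun i j h1 h2 u hu w hw => ⟨(sp i j h1 h2 w hw u hu).1.symm,
      fun h' => (sp i j h1 h2 w hw u hu).2 h'.symm⟩
  have sm : ∀ {u v : V}, (u ≠ v ∧ ¬ G.Adj u v) → (v ≠ u ∧ ¬ G.Adj v u) :=
    fun h' => ⟨h'.1.symm, fun h'' => h'.2 h''.symm⟩
  -- not first, not last
  have nf : ∀ i, i < 3 → ∀ u ∈ P i, ∀ w, (P i).head? = some w → u ≠ w → n i ≠ u ∧ ¬ G.Adj (n i) u := by
    intro i hi u hu w hw hne
    refine ⟨nn i i hi hi.le u hu, fun h' => ?_⟩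
    rw [A.fst i (Nat.zero_le _) hi u hu, hw] at h'
    exact hne (Option.some.inj h').symm
  have nlst : ∀ i, i < 3 → ∀ u ∈ P i, ∀ w, (P i).getLast? = some w → u ≠ w →
      n (i + 1) ≠ u ∧ ¬ G.Adj (n (i + 1)) u := by
    intro i hi u hu w hw hne
    refine ⟨nn i (i + 1) hi hi u hu, fun h' => ?_⟩
    rw [A.lst i (Nat.zero_le _) hi u hu, hw] at h'
    exact hne (Option.some.inj h').symm
  have ff : ∀ i, i < 3 → ∀ w ∈ P i, (P i).head? = some w → G.Adj (n i) w := fun i hi w hw hh =>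
    (A.fst i (Nat.zero_le _) hi w hw).mpr hh
  have ll : ∀ i, i < 3 → ∀ w ∈ P i, (P i).getLast? = some w → G.Adj (n (i + 1)) w := fun i hi w hw hh =>
    (A.lst i (Nat.zero_le _) hi w hw).mpr hh
  have e0_1 : G.Adj h (n 0) := xn 0 (by omega)
  have e0_2 : G.Adj h (n 3) := xn 3 (by omega)
  have e1_2 : G.Adj (n 0) (n 3) := hab
  have e0_3 : G.Adj h (n 1) := xn 1 (by omega)
  have e0_4 : G.Adj h (n 2) := xn 2 (by omega)
  have e3_4 : G.Adj (n 1) (n 2) := h12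
  have e1_5 : G.Adj (n 0) p := ff 0 (by omega) p pm php
  have e3_6 : G.Adj (n 1) p' := ll 0 (by omega) p' pm' plp
  have e4_7 : G.Adj (n 2) r := ff 2 (by omega) r rm phr
  have e2_8 : G.Adj (n 3) r' := ll 2 (by omega) r' rm' plr
  have e9_3 : G.Adj l (n 1) := (ff 1 (by omega) l lm phl).symm
  have e10_4 : G.Adj l' (n 2) := (ll 1 (by omega) l' lm' pll).symm
  have d1_3 : (n 0) ≠ (n 1) ∧ ¬ G.Adj (n 0) (n 1) :=
    ⟨A.inj 0 1 le_rfl (by omega) (by omega), h01⟩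
  have d1_4 : (n 0) ≠ (n 2) ∧ ¬ G.Adj (n 0) (n 2) :=
    ⟨A.inj 0 2 le_rfl (by omega) (by omega), h02⟩
  have d2_3 : (n 3) ≠ (n 1) ∧ ¬ G.Adj (n 3) (n 1) :=
    ⟨(A.inj 1 3 (by omega) (by omega) (by omega)).symm, h31⟩
  have d2_4 : (n 3) ≠ (n 2) ∧ ¬ G.Adj (n 3) (n 2) :=
    ⟨(A.inj 2 3 (by omega) (by omega) (by omega)).symm, h32⟩
  have d9_4 : l ≠ (n 2) ∧ ¬ G.Adj l (n 2) :=
    ⟨(nn 1 2 (by omega) (by omega) l lm).symm, fun h' => (far 1 (by omega) l lm).2 (hD (n 1) (n 2) h l h12 e0_3.symm e0_4.symm e9_3.symm h'.symm (far 1 (by omega) l lm).1)⟩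
  have d10_3 : l' ≠ (n 1) ∧ ¬ G.Adj l' (n 1) :=
    ⟨(nn 1 1 (by omega) (by omega) l' lm').symm, fun h' => (far 1 (by omega) l' lm').2 (hD (n 1) (n 2) h l' h12 e0_3.symm e0_4.symm h'.symm e10_4.symm (far 1 (by omega) l' lm').1)⟩
  have d5_0 : p ≠ h ∧ ¬ G.Adj p h :=
    sm (far 0 (by omega) p pm)
  have d5_2 : p ≠ (n 3) ∧ ¬ G.Adj p (n 3) :=
    cl' 0 3 (by omega) (by omega) (by omega) (by omega) p pm
  have d5_4 : p ≠ (n 2) ∧ ¬ G.Adj p (n 2) :=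
    cl' 0 2 (by omega) (by omega) (by omega) (by omega) p pm
  have d5_7 : p ≠ r ∧ ¬ G.Adj p r :=
    sp 0 2 (by omega) (by omega) p pm r rm
  have d5_8 : p ≠ r' ∧ ¬ G.Adj p r' :=
    sp 0 2 (by omega) (by omega) p pm r' rm'
  have d5_9 : p ≠ l ∧ ¬ G.Adj p l :=
    sp 0 1 (by omega) (by omega) p pm l lm
  have d5_10 : p ≠ l' ∧ ¬ G.Adj p l' :=
    sp 0 1 (by omega) (by omega) p pm l' lm'
  have d6_0 : p' ≠ h ∧ ¬ G.Adj p' h :=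
    sm (far 0 (by omega) p' pm')
  have d6_2 : p' ≠ (n 3) ∧ ¬ G.Adj p' (n 3) :=
    cl' 0 3 (by omega) (by omega) (by omega) (by omega) p' pm'
  have d6_4 : p' ≠ (n 2) ∧ ¬ G.Adj p' (n 2) :=
    cl' 0 2 (by omega) (by omega) (by omega) (by omega) p' pm'
  have d6_7 : p' ≠ r ∧ ¬ G.Adj p' r :=
    sp 0 2 (by omega) (by omega) p' pm' r rm
  have d6_8 : p' ≠ r' ∧ ¬ G.Adj p' r' :=
    sp 0 2 (by omega) (by omega) p' pm' r' rm'
  have d6_9 : p' ≠ l ∧ ¬ G.Adj p' l :=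
    sp 0 1 (by omega) (by omega) p' pm' l lm
  have d6_10 : p' ≠ l' ∧ ¬ G.Adj p' l' :=
    sp 0 1 (by omega) (by omega) p' pm' l' lm'
  have d7_0 : r ≠ h ∧ ¬ G.Adj r h :=
    sm (far 2 (by omega) r rm)
  have d7_1 : r ≠ (n 0) ∧ ¬ G.Adj r (n 0) :=
    cl' 2 0 (by omega) (by omega) (by omega) (by omega) r rm
  have d7_3 : r ≠ (n 1) ∧ ¬ G.Adj r (n 1) :=
    cl' 2 1 (by omega) (by omega) (by omega) (by omega) r rm
  have d7_9 : r ≠ l ∧ ¬ G.Adj r l :=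
    sp' 1 2 (by omega) (by omega) r rm l lm
  have d7_10 : r ≠ l' ∧ ¬ G.Adj r l' :=
    sp' 1 2 (by omega) (by omega) r rm l' lm'
  have d8_0 : r' ≠ h ∧ ¬ G.Adj r' h :=
    sm (far 2 (by omega) r' rm')
  have d8_1 : r' ≠ (n 0) ∧ ¬ G.Adj r' (n 0) :=
    cl' 2 0 (by omega) (by omega) (by omega) (by omega) r' rm'
  have d8_3 : r' ≠ (n 1) ∧ ¬ G.Adj r' (n 1) :=
    cl' 2 1 (by omega) (by omega) (by omega) (by omega) r' rm'
  have d8_9 : r' ≠ l ∧ ¬ G.Adj r' l :=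
    sp' 1 2 (by omega) (by omega) r' rm' l lm
  have d8_10 : r' ≠ l' ∧ ¬ G.Adj r' l' :=
    sp' 1 2 (by omega) (by omega) r' rm' l' lm'
  have d9_0 : l ≠ h ∧ ¬ G.Adj l h :=
    sm (far 1 (by omega) l lm)
  have d9_1 : l ≠ (n 0) ∧ ¬ G.Adj l (n 0) :=
    cl' 1 0 (by omega) (by omega) (by omega) (by omega) l lm
  have d9_2 : l ≠ (n 3) ∧ ¬ G.Adj l (n 3) :=
    cl' 1 3 (by omega) (by omega) (by omega) (by omega) l lm
  have d10_0 : l' ≠ h ∧ ¬ G.Adj l' h :=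
    sm (far 1 (by omega) l' lm')
  have d10_1 : l' ≠ (n 0) ∧ ¬ G.Adj l' (n 0) :=
    cl' 1 0 (by omega) (by omega) (by omega) (by omega) l' lm'
  have d10_2 : l' ≠ (n 3) ∧ ¬ G.Adj l' (n 3) :=
    cl' 1 3 (by omega) (by omega) (by omega) (by omega) l' lm'
  have ne1_6 : (n 0) ≠ p' := nn 0 0 (by omega) (by omega) p' pm'
  have ne3_5 : (n 1) ≠ p := nn 0 1 (by omega) (by omega) p pm
  have ne4_8 : (n 2) ≠ r' := nn 2 2 (by omega) (by omega) r' rm'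
  have ne2_7 : (n 3) ≠ r := nn 2 3 (by omega) (by omega) r rm
  have c1_6 : p ≠ p' → n 0 ≠ p' ∧ ¬ G.Adj (n 0) p' := fun hh => nf 0 (by omega) p' pm' p php hh.symm
  have c3_5 : p ≠ p' → n 1 ≠ p ∧ ¬ G.Adj (n 1) p := fun hh => nlst 0 (by omega) p pm p' plp hh
  have c4_8 : r ≠ r' → n 2 ≠ r' ∧ ¬ G.Adj (n 2) r' := fun hh => nf 2 (by omega) r' rm' r phr hh.symm
  have c2_7 : r ≠ r' → n 3 ≠ r ∧ ¬ G.Adj (n 3) r := fun hh => nlst 2 (by omega) r rm r' plr hh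
  have g0_0 : ∀ u ∈ Lp, h ≠ u ∧ ¬ G.Adj h u := fun u hu =>
    far 0 (by omega) u (pL u hu)
  have z0_0 : h ∉ Lp := fun hu => (g0_0 _ hu).1 rfl
  have w0_0 : ∀ u ∈ Lp, ¬ G.Adj h u := fun u hu => (g0_0 u hu).2
  have g0_1 : ∀ u ∈ Lp, (n 0) ≠ u ∧ ¬ G.Adj (n 0) u := fun u hu =>
    nf 0 (by omega) u (pL u hu) p php (fun e => np (e ▸ hu))
  have z0_1 : (n 0) ∉ Lp := fun hu => (g0_1 _ hu).1 rfl
  have w0_1 : ∀ u ∈ Lp, ¬ G.Adj (n 0) u := fun u hu => (g0_1 u hu).2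
  have g0_2 : ∀ u ∈ Lp, (n 3) ≠ u ∧ ¬ G.Adj (n 3) u := fun u hu =>
    cl 0 3 (by omega) (by omega) (by omega) (by omega) u (pL u hu)
  have z0_2 : (n 3) ∉ Lp := fun hu => (g0_2 _ hu).1 rfl
  have w0_2 : ∀ u ∈ Lp, ¬ G.Adj (n 3) u := fun u hu => (g0_2 u hu).2
  have g0_3 : ∀ u ∈ Lp, (n 1) ≠ u ∧ ¬ G.Adj (n 1) u := fun u hu =>
    nlst 0 (by omega) u (pL u hu) p' plp (fun e => np' (e ▸ hu))
  have z0_3 : (n 1) ∉ Lp := fun hu => (g0_3 _ hu).1 rfl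
  have w0_3 : ∀ u ∈ Lp, ¬ G.Adj (n 1) u := fun u hu => (g0_3 u hu).2
  have g0_4 : ∀ u ∈ Lp, (n 2) ≠ u ∧ ¬ G.Adj (n 2) u := fun u hu =>
    cl 0 2 (by omega) (by omega) (by omega) (by omega) u (pL u hu)
  have z0_4 : (n 2) ∉ Lp := fun hu => (g0_4 _ hu).1 rfl
  have w0_4 : ∀ u ∈ Lp, ¬ G.Adj (n 2) u := fun u hu => (g0_4 u hu).2
  have g0_7 : ∀ u ∈ Lp, r ≠ u ∧ ¬ G.Adj r u := fun u hu =>
    sp' 0 2 (by omega) (by omega) r rm u (pL u hu)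
  have z0_7 : r ∉ Lp := fun hu => (g0_7 _ hu).1 rfl
  have w0_7 : ∀ u ∈ Lp, ¬ G.Adj r u := fun u hu => (g0_7 u hu).2
  have g0_8 : ∀ u ∈ Lp, r' ≠ u ∧ ¬ G.Adj r' u := fun u hu =>
    sp' 0 2 (by omega) (by omega) r' rm' u (pL u hu)
  have z0_8 : r' ∉ Lp := fun hu => (g0_8 _ hu).1 rfl
  have w0_8 : ∀ u ∈ Lp, ¬ G.Adj r' u := fun u hu => (g0_8 u hu).2
  have g0_9 : ∀ u ∈ Lp, l ≠ u ∧ ¬ G.Adj l u := fun u hu =>
    sp' 0 1 (by omega) (by omega) l lm u (pL u hu)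
  have z0_9 : l ∉ Lp := fun hu => (g0_9 _ hu).1 rfl
  have w0_9 : ∀ u ∈ Lp, ¬ G.Adj l u := fun u hu => (g0_9 u hu).2
  have g0_10 : ∀ u ∈ Lp, l' ≠ u ∧ ¬ G.Adj l' u := fun u hu =>
    sp' 0 1 (by omega) (by omega) l' lm' u (pL u hu)
  have z0_10 : l' ∉ Lp := fun hu => (g0_10 _ hu).1 rfl
  have w0_10 : ∀ u ∈ Lp, ¬ G.Adj l' u := fun u hu => (g0_10 u hu).2
  have g2_0 : ∀ u ∈ Lr, h ≠ u ∧ ¬ G.Adj h u := fun u hu =>
    far 2 (by omega) u (rL u hu)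
  have z2_0 : h ∉ Lr := fun hu => (g2_0 _ hu).1 rfl
  have w2_0 : ∀ u ∈ Lr, ¬ G.Adj h u := fun u hu => (g2_0 u hu).2
  have g2_1 : ∀ u ∈ Lr, (n 0) ≠ u ∧ ¬ G.Adj (n 0) u := fun u hu =>
    cl 2 0 (by omega) (by omega) (by omega) (by omega) u (rL u hu)
  have z2_1 : (n 0) ∉ Lr := fun hu => (g2_1 _ hu).1 rfl
  have w2_1 : ∀ u ∈ Lr, ¬ G.Adj (n 0) u := fun u hu => (g2_1 u hu).2
  have g2_2 : ∀ u ∈ Lr, (n 3) ≠ u ∧ ¬ G.Adj (n 3) u := fun u hu =>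
    nlst 2 (by omega) u (rL u hu) r' plr (fun e => nr' (e ▸ hu))
  have z2_2 : (n 3) ∉ Lr := fun hu => (g2_2 _ hu).1 rfl
  have w2_2 : ∀ u ∈ Lr, ¬ G.Adj (n 3) u := fun u hu => (g2_2 u hu).2
  have g2_3 : ∀ u ∈ Lr, (n 1) ≠ u ∧ ¬ G.Adj (n 1) u := fun u hu =>
    cl 2 1 (by omega) (by omega) (by omega) (by omega) u (rL u hu)
  have z2_3 : (n 1) ∉ Lr := fun hu => (g2_3 _ hu).1 rfl
  have w2_3 : ∀ u ∈ Lr, ¬ G.Adj (n 1) u := fun u hu => (g2_3 u hu).2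
  have g2_4 : ∀ u ∈ Lr, (n 2) ≠ u ∧ ¬ G.Adj (n 2) u := fun u hu =>
    nf 2 (by omega) u (rL u hu) r phr (fun e => nr (e ▸ hu))
  have z2_4 : (n 2) ∉ Lr := fun hu => (g2_4 _ hu).1 rfl
  have w2_4 : ∀ u ∈ Lr, ¬ G.Adj (n 2) u := fun u hu => (g2_4 u hu).2
  have g2_5 : ∀ u ∈ Lr, p ≠ u ∧ ¬ G.Adj p u := fun u hu =>
    sp 0 2 (by omega) (by omega) p pm u (rL u hu)
  have z2_5 : p ∉ Lr := fun hu => (g2_5 _ hu).1 rfl
  have w2_5 : ∀ u ∈ Lr, ¬ G.Adj p u := fun u hu => (g2_5 u hu).2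
  have g2_6 : ∀ u ∈ Lr, p' ≠ u ∧ ¬ G.Adj p' u := fun u hu =>
    sp 0 2 (by omega) (by omega) p' pm' u (rL u hu)
  have z2_6 : p' ∉ Lr := fun hu => (g2_6 _ hu).1 rfl
  have w2_6 : ∀ u ∈ Lr, ¬ G.Adj p' u := fun u hu => (g2_6 u hu).2
  have g2_9 : ∀ u ∈ Lr, l ≠ u ∧ ¬ G.Adj l u := fun u hu =>
    sp 1 2 (by omega) (by omega) l lm u (rL u hu)
  have z2_9 : l ∉ Lr := fun hu => (g2_9 _ hu).1 rfl
  have w2_9 : ∀ u ∈ Lr, ¬ G.Adj l u := fun u hu => (g2_9 u hu).2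
  have g2_10 : ∀ u ∈ Lr, l' ≠ u ∧ ¬ G.Adj l' u := fun u hu =>
    sp 1 2 (by omega) (by omega) l' lm' u (rL u hu)
  have z2_10 : l' ∉ Lr := fun hu => (g2_10 _ hu).1 rfl
  have w2_10 : ∀ u ∈ Lr, ¬ G.Adj l' u := fun u hu => (g2_10 u hu).2
  have g1_0 : ∀ u ∈ Ll, h ≠ u ∧ ¬ G.Adj h u := fun u hu =>
    far 1 (by omega) u (lL u hu)
  have z1_0 : h ∉ Ll := fun hu => (g1_0 _ hu).1 rfl
  have w1_0 : ∀ u ∈ Ll, ¬ G.Adj h u := fun u hu => (g1_0 u hu).2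
  have g1_1 : ∀ u ∈ Ll, (n 0) ≠ u ∧ ¬ G.Adj (n 0) u := fun u hu =>
    cl 1 0 (by omega) (by omega) (by omega) (by omega) u (lL u hu)
  have z1_1 : (n 0) ∉ Ll := fun hu => (g1_1 _ hu).1 rfl
  have w1_1 : ∀ u ∈ Ll, ¬ G.Adj (n 0) u := fun u hu => (g1_1 u hu).2
  have g1_2 : ∀ u ∈ Ll, (n 3) ≠ u ∧ ¬ G.Adj (n 3) u := fun u hu =>
    cl 1 3 (by omega) (by omega) (by omega) (by omega) u (lL u hu)
  have z1_2 : (n 3) ∉ Ll := fun hu => (g1_2 _ hu).1 rfl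
  have w1_2 : ∀ u ∈ Ll, ¬ G.Adj (n 3) u := fun u hu => (g1_2 u hu).2
  have g1_3 : ∀ u ∈ Ll, (n 1) ≠ u ∧ ¬ G.Adj (n 1) u := fun u hu =>
    nf 1 (by omega) u (lL u hu) l phl (fun e => nl (e ▸ hu))
  have z1_3 : (n 1) ∉ Ll := fun hu => (g1_3 _ hu).1 rfl
  have w1_3 : ∀ u ∈ Ll, ¬ G.Adj (n 1) u := fun u hu => (g1_3 u hu).2
  have g1_4 : ∀ u ∈ Ll, (n 2) ≠ u ∧ ¬ G.Adj (n 2) u := fun u hu =>
    nlst 1 (by omega) u (lL u hu) l' pll (fun e => nl' (e ▸ hu))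
  have z1_4 : (n 2) ∉ Ll := fun hu => (g1_4 _ hu).1 rfl
  have w1_4 : ∀ u ∈ Ll, ¬ G.Adj (n 2) u := fun u hu => (g1_4 u hu).2
  have g1_5 : ∀ u ∈ Ll, p ≠ u ∧ ¬ G.Adj p u := fun u hu =>
    sp 0 1 (by omega) (by omega) p pm u (lL u hu)
  have z1_5 : p ∉ Ll := fun hu => (g1_5 _ hu).1 rfl
  have w1_5 : ∀ u ∈ Ll, ¬ G.Adj p u := fun u hu => (g1_5 u hu).2
  have g1_6 : ∀ u ∈ Ll, p' ≠ u ∧ ¬ G.Adj p' u := fun u hu =>
    sp 0 1 (by omega) (by omega) p' pm' u (lL u hu)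
  have z1_6 : p' ∉ Ll := fun hu => (g1_6 _ hu).1 rfl
  have w1_6 : ∀ u ∈ Ll, ¬ G.Adj p' u := fun u hu => (g1_6 u hu).2
  have g1_7 : ∀ u ∈ Ll, r ≠ u ∧ ¬ G.Adj r u := fun u hu =>
    sp' 1 2 (by omega) (by omega) r rm u (lL u hu)
  have z1_7 : r ∉ Ll := fun hu => (g1_7 _ hu).1 rfl
  have w1_7 : ∀ u ∈ Ll, ¬ G.Adj r u := fun u hu => (g1_7 u hu).2
  have g1_8 : ∀ u ∈ Ll, r' ≠ u ∧ ¬ G.Adj r' u := fun u hu =>
    sp' 1 2 (by omega) (by omega) r' rm' u (lL u hu)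
  have z1_8 : r' ∉ Ll := fun hu => (g1_8 _ hu).1 rfl
  have w1_8 : ∀ u ∈ Ll, ¬ G.Adj r' u := fun u hu => (g1_8 u hu).2
  have spw : ([Lp, Lr, Ll] : List (List V)).Pairwise
      (fun A B => ∀ x ∈ A, ∀ y ∈ B, x ≠ y ∧ ¬ G.Adj x y) := by
    simp only [List.pairwise_cons, List.mem_cons, List.not_mem_nil, or_false, forall_eq_or_imp,
      forall_eq, List.Pairwise.nil, and_true, false_imp_iff, implies_true]
    refine ⟨⟨?_, ?_⟩, ?_⟩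
    · exact fun u hu v hv => sp 0 2 (by omega) (by omega) u (pL u hu) v (rL v hv)
    · exact fun u hu v hv => sp 0 1 (by omega) (by omega) u (pL u hu) v (lL v hv)
    · exact fun u hu v hv => sp' 1 2 (by omega) (by omega) u (rL u hu) v (lL v hv)
  have p1 : p ≠ p' → IPt G (p :: (Lp ++ [p'])) := qab_pth pp
  have p2 : r ≠ r' → IPt G (r :: (Lr ++ [r'])) := qab_pth pr
  have p3 : l ≠ l' → IPt G (l :: (Ll ++ [l'])) := qab_pth pl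
  have q1 : p = p' → Lp = [] := qab_tri pp
  have q2 : r = r' → Lr = [] := qab_tri pr
  have q3 : l = l' → Ll = [] := qab_tri pl
  refine hN preAB (by simp [preCs])
    (fun i => ([h, n 0, n 3, n 1, n 2, p, p', r, r', l, l'] : List V).getD i h)
    [Lp, Lr, Ll] ⟨?_, ?_, ?_, ?_, ?_, rfl, ?_, ?_, ?_, ?_, spw⟩
  · intro y hy; fin_cases hy <;> assumption
  · intro y hy; fin_cases hy <;> assumption
  · intro y hy; fin_cases hy <;> assumption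
  · intro y hy
    fin_cases hy
    · intro hh; exact c1_6 (hh (5, 6) (by simp))
    · intro hh; exact c3_5 (hh (5, 6) (by simp))
    · intro hh; exact c4_8 (hh (7, 8) (by simp))
    · intro hh; exact c2_7 (hh (7, 8) (by simp))
  · intro y hy; exact absurd hy (by simp [preAB])
  · intro y hy; fin_cases hy <;> assumption
  · intro y hy; fin_cases hy <;> assumption
  · intro y hy i hi
    have hi' : i < 11 := hi
    fin_cases hy <;> interval_cases i <;> assumption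
  · intro y hy i hi hU h1 h2
    have hi' : i < 11 := hi
    fin_cases hy <;> interval_cases i <;>
      first
      | assumption
      | exact absurd rfl h1
      | exact absurd rfl h2

end Pool.Agent.Helper64.FL
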