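import Pool.Agent.Helper64.FL.StH

/-! Full list for MP_866009_co, module W1: ladders with a connector. -/

set_option autoImplicit false

namespace Pool.Agent.Helper64.FL

open Pool.Agent.Helper64.CT Pool.Agent.Helper64.DT
open Pool.Agent.Helper64.HG (Ovl Model Circ IC HellyCircle ChordModel)

/-- all data of the configuration except the hub of `q` -/
structure W1D {V : Type} (G : SimpleGraph V) (S : Set V) (h k d : V) (Ld : List V) (d' p : V)
    (A : List V) (r : V) (B : List V) (s : V) (C : List V) (q : V) : Prop where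
  hk : h ≠ k
  nhk : ¬ G.Adj h k
  con : Con G h k d Ld d'
  ip : IPt G (p :: (A ++ r :: (B ++ s :: (C ++ [q]))))
  anti : ∀ u, (u = d ∨ u ∈ Ld ∨ u = d') → u ∈ S ∧
    ∀ v ∈ p :: (A ++ r :: (B ++ s :: (C ++ [q]))), u ≠ v ∧ ¬ G.Adj u v
  hM : h ∉ p :: (A ++ r :: (B ++ s :: (C ++ [q])))
  kM : k ∉ p :: (A ++ r :: (B ++ s :: (C ++ [q])))
  hS : h ∈ S
  kS : k ∈ S
  MS : ∀ u ∈ p :: (A ++ r :: (B ++ s :: (C ++ [q]))), u ∈ S
  ph : G.Adj h p
  pk : ¬ G.Adj k p
  qq : Pure G h k q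
  rs : ¬ G.Adj r s
  hr : G.Adj h r
  kr : G.Adj k r
  hs : G.Adj h s
  ks : G.Adj k s

theorem w1_core (hB : ST_PTB) (hI : ST_IPL) (hPRC : ST_PRC) {V : Type} {G : SimpleGraph V}
    {S : Set V} {h k d : V} {Ld : List V} {d' p : V} {A : List V} {r : V} {B : List V} {s : V}
    {C : List V} {q : V} (W : W1D G S h k d Ld d' p A r B s C q) : ¬ NAJ G S := by
  obtain ⟨-, hPn, -⟩ := hB V G
  obtain ⟨-, spl, hnd, -⟩ := hI V G
  obtain ⟨i1, i2, X1⟩ := (spl (p :: A) (B ++ s :: (C ++ [q])) r).1 W.ip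
  obtain ⟨i3, i4, X2⟩ := (spl (r :: B) (C ++ [q]) s).1 i2
  have i1' : IPt G (p :: (A ++ [r])) := i1
  have i3' : IPt G (r :: (B ++ [s])) := i3
  have mp : p ∈ p :: (A ++ r :: (B ++ s :: (C ++ [q]))) := by simp
  have mA : ∀ u ∈ A, u ∈ p :: (A ++ r :: (B ++ s :: (C ++ [q]))) := fun u hu => by simp [hu]
  have mr : r ∈ p :: (A ++ r :: (B ++ s :: (C ++ [q]))) := by simp
  have mB : ∀ u ∈ B, u ∈ p :: (A ++ r :: (B ++ s :: (C ++ [q]))) := fun u hu => by simp [hu]
  have ms : s ∈ p :: (A ++ r :: (B ++ s :: (C ++ [q]))) := by simp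
  have mC : ∀ u ∈ C, u ∈ p :: (A ++ r :: (B ++ s :: (C ++ [q]))) := fun u hu => by simp [hu]
  have mq : q ∈ p :: (A ++ r :: (B ++ s :: (C ++ [q]))) := by simp
  obtain ⟨dS, ad⟩ := W.anti d (Or.inl rfl)
  obtain ⟨dS', ad'⟩ := W.anti d' (Or.inr (Or.inr rfl))
  have aL : ∀ u ∈ Ld, u ∈ S ∧ ∀ v ∈ p :: (A ++ r :: (B ++ s :: (C ++ [q]))), u ≠ v ∧
    ¬ G.Adj u v := fun u hu => W.anti u (Or.inr (Or.inl hu))
  have nhd := W.con.nh d (Or.inl rfl)
  have nhd' := W.con.nh d' (Or.inr (Or.inr rfl))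
  have nhL : ∀ u ∈ Ld, u ≠ h ∧ u ≠ k := fun u hu => W.con.nh u (Or.inr (Or.inl hu))
  -- edges
  have e02 : G.Adj h d := W.con.hd
  have e13 : G.Adj k d' := W.con.kd
  have e40 : G.Adj p h := W.ph.symm
  have e50 : G.Adj r h := W.hr.symm
  have e51 : G.Adj r k := W.kr.symm
  have e60 : G.Adj s h := W.hs.symm
  have e61 : G.Adj s k := W.ks.symm
  -- nodup facts
  have n1 := hnd _ i1'
  have n3 := hnd _ i3'
  have n4 := hnd _ i4
  rw [List.nodup_cons, List.nodup_append] at n1 n3 n4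
  have pA : p ∉ A := fun hm => n1.1 (by simp [hm])
  have pr : p ≠ r := fun e => n1.1 (by simp [e])
  have rA : r ∉ A := fun hm => n1.2.2.2 r hm r (by simp) rfl
  have rB : r ∉ B := fun hm => n3.1 (by simp [hm])
  have rs' : r ≠ s := fun e => n3.1 (by simp [e])
  have sB : s ∉ B := fun hm => n3.2.2.2 s hm s (by simp) rfl
  have sC : s ∉ C := fun hm => n4.1 (by simp [hm])
  have sq : s ≠ q := fun e => n4.1 (by simp [e])
  have qC : q ∉ C := fun hm => n4.2.2.2 q hm q (by simp) rfl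
  -- nonadjacent pairs
  have d01 : h ≠ k ∧ ¬ G.Adj h k := ⟨W.hk, W.nhk⟩
  have d41 : p ≠ k ∧ ¬ G.Adj p k := ⟨fun e => W.kM (e ▸ mp), fun e => W.pk e.symm⟩
  have d24 := ad p mp
  have d34 := ad' p mp
  have d25 := ad r mr
  have d35 := ad' r mr
  have d26 := ad s ms
  have d36 := ad' s ms
  have d27 := ad q mq
  have d37 := ad' q mq
  have d46 := X1 p (by simp) s (by simp)
  have d47 := X1 p (by simp) q (by simp)
  have d57 := X2 r (by simp) q (by simp)
  have d56 : r ≠ s ∧ ¬ G.Adj r s := ⟨rs', W.rs⟩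
  -- vertices outside of the paths
  obtain ⟨dL, dL', -⟩ := hPn d Ld d' W.con.pth
  have hL : h ∉ Ld := fun hm => (nhL h hm).1 rfl
  have kL : k ∉ Ld := fun hm => (nhL k hm).2 rfl
  have pL : p ∉ Ld := fun hm => ((aL p hm).2 p mp).1 rfl
  have rL : r ∉ Ld := fun hm => ((aL r hm).2 r mr).1 rfl
  have sL : s ∉ Ld := fun hm => ((aL s hm).2 s ms).1 rfl
  have qL : q ∉ Ld := fun hm => ((aL q hm).2 q mq).1 rfl
  have hA : h ∉ A := fun hm => W.hM (mA h hm)
  have kA : k ∉ A := fun hm => W.kM (mA k hm)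
  have dA : d ∉ A := fun hm => (ad d (mA d hm)).1 rfl
  have dA' : d' ∉ A := fun hm => (ad' d' (mA d' hm)).1 rfl
  have sA : s ∉ A := fun hm => (X1 s (by simp [hm]) s (by simp)).1 rfl
  have qA : q ∉ A := fun hm => (X1 q (by simp [hm]) q (by simp)).1 rfl
  have hC : h ∉ C := fun hm => W.hM (mC h hm)
  have kC : k ∉ C := fun hm => W.kM (mC k hm)
  have dC : d ∉ C := fun hm => (ad d (mC d hm)).1 rfl
  have dC' : d' ∉ C := fun hm => (ad' d' (mC d' hm)).1 rfl
  have pC : p ∉ C := fun hm => (X1 p (by simp) p (by simp [hm])).1 rfl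
  have rC : r ∉ C := fun hm => (X2 r (by simp) r (by simp [hm])).1 rfl
  have hB' : h ∉ B := fun hm => W.hM (mB h hm)
  have kB : k ∉ B := fun hm => W.kM (mB k hm)
  have dB : d ∉ B := fun hm => (ad d (mB d hm)).1 rfl
  have dB' : d' ∉ B := fun hm => (ad' d' (mB d' hm)).1 rfl
  have pB : p ∉ B := fun hm => (X1 p (by simp) p (by simp [hm])).1 rfl
  have qB : q ∉ B := fun hm => (X2 q (by simp [hm]) q (by simp)).1 rfl
  -- clean paths
  have cL0 : ∀ u ∈ Ld, ¬ G.Adj h u := fun u hu => (W.con.Lh u hu).1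
  have cL1 : ∀ u ∈ Ld, ¬ G.Adj k u := fun u hu => (W.con.Lh u hu).2
  have cL4 : ∀ u ∈ Ld, ¬ G.Adj p u := fun u hu e => ((aL u hu).2 p mp).2 e.symm
  have cL5 : ∀ u ∈ Ld, ¬ G.Adj r u := fun u hu e => ((aL u hu).2 r mr).2 e.symm
  have cL6 : ∀ u ∈ Ld, ¬ G.Adj s u := fun u hu e => ((aL u hu).2 s ms).2 e.symm
  have cL7 : ∀ u ∈ Ld, ¬ G.Adj q u := fun u hu e => ((aL u hu).2 q mq).2 e.symm
  have cA2 : ∀ u ∈ A, ¬ G.Adj d u := fun u hu => (ad u (mA u hu)).2
  have cA3 : ∀ u ∈ A, ¬ G.Adj d' u := fun u hu => (ad' u (mA u hu)).2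
  have cA6 : ∀ u ∈ A, ¬ G.Adj s u := fun u hu e => (X1 u (by simp [hu]) s (by simp)).2 e.symm
  have cA7 : ∀ u ∈ A, ¬ G.Adj q u := fun u hu e => (X1 u (by simp [hu]) q (by simp)).2 e.symm
  have cC2 : ∀ u ∈ C, ¬ G.Adj d u := fun u hu => (ad u (mC u hu)).2
  have cC3 : ∀ u ∈ C, ¬ G.Adj d' u := fun u hu => (ad' u (mC u hu)).2
  have cC4 : ∀ u ∈ C, ¬ G.Adj p u := fun u hu => (X1 p (by simp) u (by simp [hu])).2
  have cC5 : ∀ u ∈ C, ¬ G.Adj r u := fun u hu => (X2 r (by simp) u (by simp [hu])).2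
  have cB2 : ∀ u ∈ B, ¬ G.Adj d u := fun u hu => (ad u (mB u hu)).2
  have cB3 : ∀ u ∈ B, ¬ G.Adj d' u := fun u hu => (ad' u (mB u hu)).2
  have cB4 : ∀ u ∈ B, ¬ G.Adj p u := fun u hu => (X1 p (by simp) u (by simp [hu])).2
  have cB7 : ∀ u ∈ B, ¬ G.Adj q u := fun u hu e => (X2 u (by simp [hu]) q (by simp)).2 e.symm
  have sp : ([Ld, A, C, B] : List (List V)).Pairwise
      (fun A B => ∀ x ∈ A, ∀ y ∈ B, x ≠ y ∧ ¬ G.Adj x y) := by
    simp only [List.pairwise_cons, List.mem_cons, List.not_mem_nil, or_false, forall_eq_or_imp,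
      forall_eq, List.Pairwise.nil, and_true, false_imp_iff, implies_true]
    refine ⟨⟨?_, ?_, ?_⟩, ⟨?_, ?_⟩, ?_⟩
    · intro u hu v hv
      exact (aL u hu).2 v (mA v hv)
    · intro u hu v hv
      exact (aL u hu).2 v (mC v hv)
    · intro u hu v hv
      exact (aL u hu).2 v (mB v hv)
    · intro u hu v hv
      exact X1 u (by simp [hu]) v (by simp [hv])
    · intro u hu v hv
      exact X1 u (by simp [hu]) v (by simp [hv])
    · intro u hu v hv
      have t := X2 v (by simp [hv]) u (by simp [hu])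
      exact ⟨t.1.symm, fun e => t.2 e.symm⟩
  have cd1 : d ≠ d' → h ≠ d' ∧ ¬ G.Adj h d' := fun e => ⟨nhd'.1.symm, (W.con.dd e).1⟩
  have cd2 : d ≠ d' → k ≠ d ∧ ¬ G.Adj k d := fun e => ⟨nhd.2.symm, (W.con.dd e).2⟩
  have tL : d = d' → Ld = [] := by
    intro e
    rcases W.con.pth with ⟨-, e2⟩ | ⟨e2, -⟩
    · exact e2
    · exact absurd e e2
  have tA : p = r → A = [] := fun e => absurd e pr
  have tC : s = q → C = [] := fun e => absurd e sq
  have tB : r = s → B = [] := fun e => absurd e rs'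
  have pL1 : d ≠ d' → IPt G (d :: (Ld ++ [d'])) := by
    intro e
    rcases W.con.pth with ⟨e2, -⟩ | ⟨-, e2⟩
    · exact absurd e2 e
    · exact e2
  have pA1 : p ≠ r → IPt G (p :: (A ++ [r])) := fun _ => i1'
  have pC1 : s ≠ q → IPt G (s :: (C ++ [q])) := fun _ => i4
  have pB1 : r ≠ s → IPt G (r :: (B ++ [s])) := fun _ => i3'
  have hS := W.hS
  have kS := W.kS
  have pS := W.MS p mp
  have rS := W.MS r mr
  have sS := W.MS s ms
  have qS := W.MS q mq
  have hLS : ∀ i, i < 8 → (([h, k, d, d', p, r, s, q] : List V).getD i h) ∈ S := by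
    intro i hi
    interval_cases i <;> assumption
  have hAS : ∀ X ∈ ([Ld, A, C, B] : List (List V)), ∀ x ∈ X, x ∈ S := by
    intro X hX x hx
    simp only [List.mem_cons, List.not_mem_nil, or_false] at hX
    rcases hX with rfl | rfl | rfl | rfl
    · exact (aL x hx).1
    · exact W.MS x (mA x hx)
    · exact W.MS x (mC x hx)
    · exact W.MS x (mB x hx)
  rcases W.qq with ⟨q1, q2⟩ | ⟨q1, q2⟩
  · have e70 : G.Adj q h := q1.symm
    have d71 : q ≠ k ∧ ¬ G.Adj q k := ⟨fun e => W.kM (e ▸ mq), fun e => q2 e.symm⟩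
    refine hPRC V G preW1a (fun i => ([h, k, d, d', p, r, s, q] : List V).getD i h)
      [Ld, A, C, B] cerW1a S ⟨?_, ?_, ?_, ?_, ?_, rfl, ?_, ?_, ?_, ?_, sp⟩ chkW1a hLS hAS
    · intro y hy; fin_cases hy <;> assumption
    · intro y hy; fin_cases hy <;> assumption
    · intro y hy; exact absurd hy (by simp [preW1a])
    · intro y hy
      fin_cases hy
      · intro t; exact cd1 (t (2, 3) (by simp))
      · intro t; exact cd2 (t (2, 3) (by simp))
    · intro y hy; exact absurd hy (by simp [preW1a])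
    · intro y hy; fin_cases hy <;> assumption
    · intro y hy; fin_cases hy <;> assumption
    · intro y hy i hi
      have hi' : i < 8 := hi
      fin_cases hy <;> interval_cases i <;> assumption
    · intro y hy i hi hU h1 h2
      have hi' : i < 8 := hi
      fin_cases hy <;> interval_cases i <;>
        first
        | assumption
        | exact absurd rfl h1
        | exact absurd rfl h2
        | exact absurd (by simp) hU
  · have e71 : G.Adj q k := q2.symm
    have d70 : q ≠ h ∧ ¬ G.Adj q h := ⟨fun e => W.hM (e ▸ mq), fun e => q1 e.symm⟩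
    refine hPRC V G preW1b (fun i => ([h, k, d, d', p, r, s, q] : List V).getD i h)
      [Ld, A, C, B] cerW1b S ⟨?_, ?_, ?_, ?_, ?_, rfl, ?_, ?_, ?_, ?_, sp⟩ chkW1b hLS hAS
    · intro y hy; fin_cases hy <;> assumption
    · intro y hy; fin_cases hy <;> assumption
    · intro y hy; exact absurd hy (by simp [preW1b])
    · intro y hy
      fin_cases hy
      · intro t; exact cd1 (t (2, 3) (by simp))
      · intro t; exact cd2 (t (2, 3) (by simp))
    · intro y hy; exact absurd hy (by simp [preW1b])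
    · intro y hy; fin_cases hy <;> assumption
    · intro y hy; fin_cases hy <;> assumption
    · intro y hy i hi
      have hi' : i < 8 := hi
      fin_cases hy <;> interval_cases i <;> assumption
    · intro y hy i hi hU h1 h2
      have hi' : i < 8 := hi
      fin_cases hy <;> interval_cases i <;>
        first
        | assumption
        | exact absurd rfl h1
        | exact absurd rfl h2
        | exact absurd (by simp) hU

theorem w1_con (hB : ST_PTB) {V : Type} {G : SimpleGraph V} {h k d : V} {Ld : List V} {d' : V}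
    (c : Con G h k d Ld d') : Con G k h d' Ld.reverse d where
  hd := c.kd
  kd := c.hd
  pth := (hB V G).1 _ _ _ c.pth
  dd := fun e => ⟨(c.dd e.symm).2, (c.dd e.symm).1⟩
  Lh := fun u hu => by
    have t := c.Lh u (List.mem_reverse.1 hu)
    exact ⟨t.2, t.1⟩
  nh := fun u hu => by
    have t := c.nh u (by
      rcases hu with e | e | e
      · exact Or.inr (Or.inr e)
      · exact Or.inr (Or.inl (List.mem_reverse.1 e))
      · exact Or.inl e)
    exact ⟨t.2, t.1⟩

theorem w1_pure {V : Type} {G : SimpleGraph V} {h k x : V} (t : Pure G h k x) : Pure G k h x := by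
  rcases t with ⟨a, b⟩ | ⟨a, b⟩
  · exact Or.inr ⟨b, a⟩
  · exact Or.inl ⟨b, a⟩

theorem w1_split (hB : ST_PTB) (hI : ST_IPL) (hPRC : ST_PRC) {V : Type} {G : SimpleGraph V}
    {S : Set V} {h k d : V} {Ld : List V} {d' : V} {A : List V} {r : V} {B : List V} {s : V}
    {C : List V} (hk : h ≠ k) (nhk : ¬ G.Adj h k) (con : Con G h k d Ld d')
    (ip : IPt G (A ++ r :: (B ++ s :: C)))
    (anti : ∀ u, (u = d ∨ u ∈ Ld ∨ u = d') → u ∈ S ∧
      ∀ v ∈ A ++ r :: (B ++ s :: C), u ≠ v ∧ ¬ G.Adj u v)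
    (hM : h ∉ A ++ r :: (B ++ s :: C)) (kM : k ∉ A ++ r :: (B ++ s :: C)) (hS : h ∈ S)
    (kS : k ∈ S) (MS : ∀ u ∈ A ++ r :: (B ++ s :: C), u ∈ S)
    (p1 : ∀ u ∈ (A ++ r :: (B ++ s :: C)).head?, Pure G h k u)
    (p2 : ∀ u ∈ (A ++ r :: (B ++ s :: C)).getLast?, Pure G h k u)
    (rs : ¬ G.Adj r s) (hr : G.Adj h r) (kr : G.Adj k r) (hs : G.Adj h s) (ks : G.Adj k s) :
    ¬ NAJ G S := by
  have npr : ∀ x, G.Adj h x → G.Adj k x → ¬ Pure G h k x := by
    rintro x a b (⟨_, c⟩ | ⟨c, _⟩)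
    · exact c b
    · exact c a
  cases A with
  | nil =>
    exact absurd (p1 r (by simp)) (npr r hr kr)
  | cons p A =>
    rcases List.eq_nil_or_concat C with rfl | ⟨C', q, rfl⟩
    · have e : (p :: A ++ r :: (B ++ [s])).getLast? = some s := by
        have e1 : p :: A ++ r :: (B ++ [s]) = (p :: A ++ r :: B) ++ [s] := by simp
        rw [e1]
        exact List.getLast?_concat
      exact absurd (p2 s e) (npr s hs ks)
    · rw [List.concat_eq_append] at ip anti hM kM MS p1 p2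
      have pp : Pure G h k p := p1 p (by simp)
      have e : (p :: A ++ r :: (B ++ s :: (C' ++ [q]))).getLast? = some q := by
        have e1 : p :: A ++ r :: (B ++ s :: (C' ++ [q])) = (p :: A ++ r :: (B ++ s :: C')) ++ [q] := by
          simp
        rw [e1]
        exact List.getLast?_concat
      have qq : Pure G h k q := p2 q e
      rcases pp with ⟨a, b⟩ | ⟨a, b⟩
      · exact w1_core hB hI hPRC
          ⟨hk, nhk, con, ip, anti, hM, kM, hS, kS, MS, a, b, qq, rs, hr, kr, hs, ks⟩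
      · refine w1_core hB hI hPRC
          ⟨hk.symm, fun e => nhk e.symm, w1_con hB con, ip, ?_, kM, hM, kS, hS, MS, b, a,
            w1_pure qq, rs, kr, hr, ks, hs⟩
        intro u hu
        apply anti u
        rcases hu with e | e | e
        · exact Or.inr (Or.inr e)
        · exact Or.inr (Or.inl (List.mem_reverse.1 e))
        · exact Or.inl e

theorem st_W1 (hB : ST_PTB) (hI : ST_IPL) (hPRC : ST_PRC) : ST_W1 := by
  intro V G S h k d Ld d' M hk nhk con ip anti hM kM hS kS MS p1 p2 hrs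
  obtain ⟨r, rM, s, sM, ne, nrs, hr, kr, hs, ks⟩ := hrs
  obtain ⟨A, T, rfl⟩ := List.append_of_mem rM
  rw [List.mem_append, List.mem_cons] at sM
  rcases sM with sM | sM | sM
  · obtain ⟨A', B, rfl⟩ := List.append_of_mem sM
    have e : A' ++ s :: B ++ r :: T = A' ++ s :: (B ++ r :: T) := by simp
    rw [e] at ip anti hM kM MS p1 p2
    exact w1_split hB hI hPRC hk nhk con ip anti hM kM hS kS MS p1 p2 (fun t => nrs t.symm)
      hs ks hr kr
  · exact absurd sM.symm ne
  · obtain ⟨B, C, rfl⟩ := List.append_of_mem sM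
    exact w1_split hB hI hPRC hk nhk con ip anti hM kM hS kS MS p1 p2 nrs hr kr hs ks

end Pool.Agent.Helper64.FL
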